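import Pool.Agent.J4H16.DV.Stm3

/-! # Project DV, (BX): Bernstein's inequality on a box -/

set_option autoImplicit false

namespace Pool.Agent.J4H53.DV

open Set MeasureTheory Topology Filter
open TH525.AG TH525.PU Pool.Agent.J4H16.DV

/-- **(BX)** -/
theorem t_BX : Pool.Agent.J4H16.LI.S_QB → S_BX := by
  intro hQ F n M R H hF hR hH hM hb w hw x y hxR hyH hxw hyw
  have hn : (0 : ℝ) ≤ n := Nat.cast_nonneg n
  have h0 : |ev F 0| ≤ M := hb 0 0 (by rw [abs_zero]; exact hR.le) (by rw [abs_zero]; exact hH.le)
  have hp1 : |ev F (x, y)| ≤ M := hb x y hxR hyH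
  have h2 : |ev F (x, y) - ev F 0| ≤ 2 * M := (abs_sub _ _).trans (by linarith)
  rw [mul_min_of_nonneg _ _ (by positivity : 0 ≤ 2 * M), mul_one]
  refine le_min h2 ?_
  rcases le_or_gt w (1 / 2) with hw2 | hw2
  · -- polar coordinates of `(x, y)`
    set z : ℂ := ⟨x, y⟩ with hz
    set t := Complex.arg z with ht
    set s := ‖z‖ with hs
    have hc : s * Real.cos t = x := Complex.norm_mul_cos_arg z
    have hsn : s * Real.sin t = y := Complex.norm_mul_sin_arg z
    have hs0 : 0 ≤ s := norm_nonneg _
    rcases hs0.eq_or_lt with hs1 | hs1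
    · have hx0 : x = 0 := by rw [← hc, ← hs1, zero_mul]
      have hy0 : y = 0 := by rw [← hsn, ← hs1, zero_mul]
      rw [hx0, hy0]
      have h00 : ((0, 0) : ℝ × ℝ) = 0 := rfl
      rw [h00, sub_self, abs_zero]
      positivity
    · have hw0 : 0 < w := by
        rcases hw.eq_or_lt with h | h
        · exfalso
          rw [← h, zero_mul] at hxw hyw
          have hx0 : x = 0 := abs_nonpos_iff.1 hxw
          have hy0 : y = 0 := abs_nonpos_iff.1 hyw
          have : z = 0 := by rw [hz, hx0, hy0]; rfl
          rw [hs, this, norm_zero] at hs1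
          exact lt_irrefl _ hs1
        · exact h
      have hval : ∀ ρ : ℝ, (rpoly F t).eval ρ = ev F (ρ * Real.cos t, ρ * Real.sin t) := by
        intro ρ
        rw [rpoly_eval]
        rfl
      have hcx : |Real.cos t| * s ≤ w * R := by
        rw [← abs_of_pos hs1, ← abs_mul, mul_comm, hc]
        exact hxw
      have hsy : |Real.sin t| * s ≤ w * H := by
        rw [← abs_of_pos hs1, ← abs_mul, mul_comm, hsn]
        exact hyw
      have hq := hQ n (rpoly F t) (rpoly_deg F hF t) M (s / w) (by positivity) hM (fun ρ hρ => by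
        rw [hval]
        rw [le_div_iff₀ hw0] at hρ
        apply hb
        · rw [abs_mul]
          have h3 : w * (|ρ| * |Real.cos t|) ≤ w * R := by
            calc w * (|ρ| * |Real.cos t|) = (|ρ| * w) * |Real.cos t| := by ring
              _ ≤ s * |Real.cos t| := mul_le_mul_of_nonneg_right hρ (abs_nonneg _)
              _ = |Real.cos t| * s := by ring
              _ ≤ w * R := hcx
          exact le_of_mul_le_mul_left h3 hw0
        · rw [abs_mul]
          have h3 : w * (|ρ| * |Real.sin t|) ≤ w * H := by
            calc w * (|ρ| * |Real.sin t|) = (|ρ| * w) * |Real.sin t| := by ring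
              _ ≤ s * |Real.sin t| := mul_le_mul_of_nonneg_right hρ (abs_nonneg _)
              _ = |Real.sin t| * s := by ring
              _ ≤ w * H := hsy
          exact le_of_mul_le_mul_left h3 hw0)
      have hd : ∀ v ∈ Icc (0 : ℝ) s, HasDerivWithinAt (fun v => (rpoly F t).eval v)
          ((rpoly F t).derivative.eval v) (Icc 0 s) v := fun v _ =>
        ((rpoly F t).hasDerivAt v).hasDerivWithinAt
      have hmv := (convex_Icc (0 : ℝ) s).norm_image_sub_le_of_norm_hasDerivWithin_le (C := 2 * n * M / (s / w)) hd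
        (fun v hv => by
          rw [Real.norm_eq_abs]
          refine hq v ?_
          rw [abs_of_nonneg hv.1]
          refine hv.2.trans ?_
          rw [div_div, le_div_iff₀ (by positivity)]
          nlinarith) (left_mem_Icc.2 hs0) (right_mem_Icc.2 hs0)
      simp only [hval, zero_mul] at hmv
      rw [hc, hsn, Real.norm_eq_abs, Real.norm_eq_abs, sub_zero, abs_of_nonneg hs0] at hmv
      have h00 : ((0, 0) : ℝ × ℝ) = 0 := rfl
      rw [h00] at hmv
      refine hmv.trans ?_
      have e : 2 * (n : ℝ) * M / (s / w) * s = 2 * n * M * w := by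
        field_simp
      rw [e]
      have h4 : 0 ≤ 2 * (n : ℝ) * M * w + 4 * M * w := by positivity
      have h5 : 2 * M * (2 * ((n : ℝ) + 1) * w) = 2 * n * M * w + (2 * n * M * w + 4 * M * w) := by ring
      rw [h5]
      linarith
  · have h3 : 1 ≤ 2 * ((n : ℝ) + 1) * w := by nlinarith
    refine h2.trans ?_
    have := mul_le_mul_of_nonneg_left h3 (by positivity : 0 ≤ 2 * M)
    linarith

end Pool.Agent.J4H53.DV
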