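import Pool.Agent.J4H16.DV.Stm3

/-! # Project DV, (DX): the partial derivative -/

set_option autoImplicit false

namespace Pool.Agent.J4H53.DV

open Set MeasureTheory Topology Filter
open TH525.AG TH525.PU Pool.Agent.J4H16.DV

/-- **(DX)** -/
theorem t_DX : S_DX := by
  intro F x y
  induction F using MvPolynomial.induction_on with
  | C a =>
    have h1 : (fun t => ev (MvPolynomial.C a) (t, y)) = fun _ => a := by
      funext t
      simp [ev]
    rw [h1]
    have h2 : ev (MvPolynomial.pderiv 0 (MvPolynomial.C a : MvPolynomial (Fin 2) ℝ)) (x, y) = 0 := by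
      simp [ev]
    rw [h2]
    exact hasDerivAt_const x a
  | add p q hp hq =>
    have h1 : (fun t => ev (p + q) (t, y)) = fun t => ev p (t, y) + ev q (t, y) := by
      funext t
      simp [ev]
    rw [h1]
    have h2 : ev (MvPolynomial.pderiv 0 (p + q)) (x, y) =
        ev (MvPolynomial.pderiv 0 p) (x, y) + ev (MvPolynomial.pderiv 0 q) (x, y) := by
      simp [ev]
    rw [h2]
    exact hp.add hq
  | mul_X p i hp =>
    have h2 : ev (MvPolynomial.pderiv 0 (p * MvPolynomial.X i)) (x, y) =
        ev (MvPolynomial.pderiv 0 p) (x, y) * ev (MvPolynomial.X i) (x, y) +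
          ev p (x, y) * ev (MvPolynomial.pderiv 0 (MvPolynomial.X i)) (x, y) := by
      simp [ev, Derivation.leibniz]
      ring
    have h3 : HasDerivAt (fun t => ev (MvPolynomial.X i : MvPolynomial (Fin 2) ℝ) (t, y))
        (ev (MvPolynomial.pderiv 0 (MvPolynomial.X i)) (x, y)) x := by
      fin_cases i
      · have e1 : (fun t => ev (MvPolynomial.X 0 : MvPolynomial (Fin 2) ℝ) (t, y)) = fun t => t := by
          funext t
          simp [ev]
        have e2 : ev (MvPolynomial.pderiv 0 (MvPolynomial.X 0 : MvPolynomial (Fin 2) ℝ)) (x, y) = 1 := by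
          simp [ev]
        change HasDerivAt (fun t => ev (MvPolynomial.X 0 : MvPolynomial (Fin 2) ℝ) (t, y))
          (ev (MvPolynomial.pderiv 0 (MvPolynomial.X 0)) (x, y)) x
        rw [e1, e2]
        exact hasDerivAt_id x
      · have e1 : (fun t => ev (MvPolynomial.X 1 : MvPolynomial (Fin 2) ℝ) (t, y)) = fun _ => y := by
          funext t
          simp [ev]
        have e2 : ev (MvPolynomial.pderiv 0 (MvPolynomial.X 1 : MvPolynomial (Fin 2) ℝ)) (x, y) = 0 := by
          simp [ev]
        change HasDerivAt (fun t => ev (MvPolynomial.X 1 : MvPolynomial (Fin 2) ℝ) (t, y))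
          (ev (MvPolynomial.pderiv 0 (MvPolynomial.X 1)) (x, y)) x
        rw [e1, e2]
        exact hasDerivAt_const x y
    have h1 : (fun t => ev (p * MvPolynomial.X i) (t, y)) = fun t => ev p (t, y) * ev (MvPolynomial.X i) (t, y) := by
      funext t
      simp [ev]
    rw [h1, h2]
    exact hp.mul h3

end Pool.Agent.J4H53.DV
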